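import Mathlib
import Pool.Agent.R249.HStar.Count

/-! Lattice polytopes with `h*`-polynomial `1 + a t^k + b t^(2k)`, `b ≥ 2`: the bound
`a + b + 1 ≤ (4 b + 4) k` for the normalized volume, for all `k ≥ 2`. -/

set_option autoImplicit false

namespace Pool.Agent.Results.MP_362855_co.VolumeBound

open scoped Pointwise

/-- The polytope spanned by the finite set `V` of lattice points: the convex hull in `ℝ^d`. -/
def polytope {d : ℕ} (V : Finset (Fin d → ℤ)) : Set (Fin d → ℝ) :=
  convexHull ℝ ((fun (z : Fin d → ℤ) (j : Fin d) => (z j : ℝ)) '' (V : Set (Fin d → ℤ)))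

/-- The number of lattice points in the dilate `m Δ` of `Δ = polytope V`. -/
noncomputable def ehrhart {d : ℕ} (V : Finset (Fin d → ℤ)) (m : ℕ) : ℕ :=
  Set.ncard {z : Fin d → ℤ | (fun j => (z j : ℝ)) ∈ (m : ℝ) • polytope V}

/-- `h` is the `h*`-polynomial of `polytope V`:
`∑ (number of lattice points of m Δ) t^m = h(t) / (1 - t)^(d + 1)`. -/
def IsHStar {d : ℕ} (V : Finset (Fin d → ℤ)) (h : Polynomial ℤ) : Prop :=
  PowerSeries.mk (fun m : ℕ => (ehrhart V m : ℤ)) * (1 - PowerSeries.X) ^ (d + 1) =
    (h : PowerSeries ℤ)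

open Pool.Agent.R249.HStar Finset

theorem main {k a b d : ℕ} (hk : 2 ≤ k) (hb : 2 ≤ b) (V : Finset (Fin d → ℤ))
    (hV : (interior (polytope V)).Nonempty)
    (hh : IsHStar V (1 + Polynomial.C (a : ℤ) * Polynomial.X ^ k +
      Polynomial.C (b : ℤ) * Polynomial.X ^ (2 * k))) :
    a + b + 1 ≤ (4 * b + 4) * k := by
  classical
  have hspan : affineSpan ℝ ((fun (z : Fin d → ℤ) (j : Fin d) => (z j : ℝ)) ''
      (V : Set (Fin d → ℤ))) = ⊤ :=
    interior_convexHull_nonempty_iff_affineSpan_eq_top.1 hV
  have hh' : PowerSeries.mk (fun m : ℕ => (ehrhart V m : ℤ)) * (1 - PowerSeries.X) ^ (d + 1) =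
      1 + PowerSeries.C (a : ℤ) * PowerSeries.X ^ k +
        PowerSeries.C (b : ℤ) * PowerSeries.X ^ (2 * k) := by
    rw [hh, Polynomial.coe_add, Polynomial.coe_add, Polynomial.coe_one, Polynomial.coe_mul,
      Polynomial.coe_mul, Polynomial.coe_pow, Polynomial.coe_pow, Polynomial.coe_X,
      Polynomial.coe_C, Polynomial.coe_C]
  -- the first two coefficients
  have hc : ∀ j, PowerSeries.coeff j (1 + PowerSeries.C (a : ℤ) * PowerSeries.X ^ k +
        PowerSeries.C (b : ℤ) * PowerSeries.X ^ (2 * k)) =
      (if j = 0 then 1 else 0) + (if j = k then (a : ℤ) else 0) +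
        (if j = 2 * k then (b : ℤ) else 0) := by
    intro j
    rw [map_add, map_add, PowerSeries.coeff_one, PowerSeries.coeff_C_mul, PowerSeries.coeff_C_mul,
      PowerSeries.coeff_X_pow, PowerSeries.coeff_X_pow]
    simp
  have h0 : (ehrhart V 0 : ℤ) = 1 := by
    have h1 := congrArg (PowerSeries.coeff 0) hh'
    rw [hc 0, PowerSeries.coeff_mul] at h1
    simp only [Finset.Nat.antidiagonal_zero, sum_singleton, PowerSeries.coeff_mk] at h1
    have h2 : PowerSeries.coeff 0 ((1 - PowerSeries.X : PowerSeries ℤ) ^ (d + 1)) = 1 := by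
      simp
    rw [h2, if_neg (by omega : ¬ 0 = k), if_neg (by omega : ¬ 0 = 2 * k)] at h1
    simpa using h1
  have h1 : (ehrhart V 1 : ℤ) = d + 1 := by
    have h1 := congrArg (PowerSeries.coeff 1) hh'
    rw [hc 1, PowerSeries.coeff_mul] at h1
    have h2 : PowerSeries.coeff 0 ((1 - PowerSeries.X : PowerSeries ℤ) ^ (d + 1)) = 1 := by
      simp
    have h3 : PowerSeries.coeff 1 ((1 - PowerSeries.X : PowerSeries ℤ) ^ (d + 1)) =
        -(d + 1) := by
      rw [PowerSeries.coeff_one_pow]
      simp [PowerSeries.coeff_one]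
    rw [Finset.Nat.antidiagonal_succ] at h1
    simp only [Finset.Nat.antidiagonal_zero, sum_cons, map_singleton, sum_singleton,
      PowerSeries.coeff_mk] at h1
    simp only [Function.Embedding.prodMap, Function.Embedding.coeFn_mk, Prod.map,
      Function.Embedding.refl_apply, Nat.succ_eq_add_one, zero_add] at h1
    rw [h2, h3, h0, if_neg (by omega), if_neg (by omega), if_neg (by omega)] at h1
    linarith
  have h1n : ehrhart V 1 = d + 1 := by exact_mod_cast h1
  -- the number of vertices
  have hle : V.card ≤ d + 1 := by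
    rw [← h1n, ehrhart, ← Set.ncard_coe_finset]
    refine Set.ncard_le_ncard ?_ (Set.finite_of_ncard_ne_zero ?_)
    · intro z hz
      rw [Set.mem_ofPred_eq, Nat.cast_one, one_smul]
      exact subset_convexHull ℝ _ ⟨z, hz, rfl⟩
    · have : ehrhart V 1 ≠ 0 := by omega
      exact this
  have hvs : vectorSpan ℝ ((fun (z : Fin d → ℤ) (j : Fin d) => (z j : ℝ)) ''
      (V : Set (Fin d → ℤ))) = ⊤ := by
    rw [← direction_affineSpan, hspan, AffineSubspace.direction_top]
  have hge : d + 1 ≤ V.card := by
    by_contra hlt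
    push Not at hlt
    rcases Nat.eq_zero_or_pos V.card with h | h
    · rw [card_eq_zero] at h
      rw [h, coe_empty, Set.image_empty, AffineSubspace.span_empty] at hspan
      exact AffineSubspace.bot_ne_top ℝ (Fin d → ℝ) (Fin d → ℝ) hspan
    · obtain ⟨n, hn⟩ : ∃ n, V.card = n + 1 := ⟨V.card - 1, by omega⟩
      have h2 := finrank_vectorSpan_image_finset_le ℝ
        (fun (z : Fin d → ℤ) (j : Fin d) => (z j : ℝ)) V hn
      rw [coe_image, hvs, finrank_top, Module.finrank_fin_fun] at h2
      omega
  have hcard : V.card = d + 1 := le_antisymm hle hge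
  let e : Fin (d + 1) ≃ V := (V.equivFinOfCardEq hcard).symm
  let v : Fin (d + 1) → Fin d → ℤ := fun i => (e i).1
  have hrange : Set.range (fun i => emb (v i)) =
      (fun (z : Fin d → ℤ) (j : Fin d) => (z j : ℝ)) '' (V : Set (Fin d → ℤ)) := by
    ext x
    constructor
    · rintro ⟨i, rfl⟩
      exact ⟨v i, (e i).2, rfl⟩
    · rintro ⟨z, hz, rfl⟩
      refine ⟨e.symm ⟨z, hz⟩, ?_⟩
      simp only [v, Equiv.apply_symm_apply]
      rfl
  have hind : AffineIndependent ℝ (fun i => emb (v i)) := by
    rw [affineIndependent_iff_finrank_vectorSpan_eq ℝ _ (n := d) (by simp), hrange, hvs,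
      finrank_top, Module.finrank_fin_fun]
  obtain ⟨D, A, hD, hA, hA'⟩ := exists_A (WM v) (det_ne_zero v hind)
  have : NeZero D := ⟨hD⟩
  have hser := series hA hA'
  have hser' : ∑ x : (red A D).range, (PowerSeries.X : PowerSeries ℤ) ^ Hf x.1 =
      1 + PowerSeries.C (a : ℤ) * PowerSeries.X ^ k +
        PowerSeries.C (b : ℤ) * PowerSeries.X ^ (2 * k) := by
    rw [← hser, ← hh']
    congr 1
    congr 1
    funext m
    rw [hrange]
    rfl
  let G := (red A D).range
  let H : G → ℕ := fun x => Hf x.1
  have hcount : ∀ j, (((univ.filter fun x : G => H x = j).card : ℕ) : ℤ) =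
      (if j = 0 then 1 else 0) + (if j = k then (a : ℤ) else 0) +
        (if j = 2 * k then (b : ℤ) else 0) := by
    intro j
    rw [← hc j, ← hser', map_sum, card_filter]
    push_cast
    refine sum_congr rfl fun x _ => ?_
    rw [PowerSeries.coeff_X_pow]
    by_cases h : H x = j
    · rw [if_pos h, if_pos h.symm]
    · rw [if_neg h, if_neg (fun h' => h h'.symm)]
  have hval' : ∀ x : G, H x = 0 ∨ H x = k ∨ H x = 2 * k := by
    intro x
    by_contra hcon
    push Not at hcon
    have h2 := hcount (H x)
    rw [if_neg hcon.1, if_neg hcon.2.1, if_neg hcon.2.2] at h2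
    have h3 : (univ.filter fun y : G => H y = H x).card = 0 := by
      have : (((univ.filter fun y : G => H y = H x).card : ℕ) : ℤ) = 0 := by rw [h2]; ring
      exact_mod_cast this
    rw [card_eq_zero] at h3
    have : x ∈ (univ.filter fun y : G => H y = H x) := by simp
    rw [h3] at this
    exact absurd this (notMem_empty _)
  have hHD : ∀ x : G, D * H x = ∑ i, (x.1 i).val := fun x => mul_Hf hA x.2
  have hnz : ∀ x : G, x ≠ 0 → H x ≠ 0 := by
    intro x hx h
    apply hx
    have h2 := hHD x
    rw [h, mul_zero] at h2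
    have h3 := (sum_eq_zero_iff.1 h2.symm)
    apply Subtype.ext
    funext i
    exact (ZMod.val_eq_zero _).1 (h3 i (mem_univ i))
  have hcb : (univ.filter fun x : G => H x = 2 * k).card = b := by
    have := hcount (2 * k)
    rw [if_neg (by omega), if_neg (by omega), if_pos rfl] at this
    have h2 : (((univ.filter fun x : G => H x = 2 * k).card : ℕ) : ℤ) = b := by
      rw [this]; ring
    exact_mod_cast h2
  have hca : (univ.filter fun x : G => H x = k).card = a := by
    have := hcount k
    rw [if_neg (by omega), if_pos rfl, if_neg (by omega)] at this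
    have h2 : (((univ.filter fun x : G => H x = k).card : ℕ) : ℤ) = a := by
      rw [this]; ring
    exact_mod_cast h2
  have hc0 : (univ.filter fun x : G => H x = 0).card = 1 := by
    have := hcount 0
    rw [if_pos rfl, if_neg (by omega), if_neg (by omega)] at this
    have h2 : (((univ.filter fun x : G => H x = 0).card : ℕ) : ℤ) = 1 := by
      rw [this]; ring
    exact_mod_cast h2
  have hcardG : Fintype.card G = a + b + 1 := by
    rw [← Finset.card_univ]
    have h2 : (univ : Finset G) = ((univ.filter fun x : G => H x = 0) ∪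
        (univ.filter fun x : G => H x = k)) ∪ (univ.filter fun x : G => H x = 2 * k) := by
      ext x
      simp only [mem_univ, mem_union, mem_filter, true_and, true_iff]
      rcases hval' x with h | h | h <;> tauto
    rw [h2, card_union_of_disjoint, card_union_of_disjoint, hc0, hca, hcb]
    · ring
    · rw [disjoint_left]
      intro x hx hy
      simp only [mem_filter, mem_univ, true_and] at hx hy
      omega
    · rw [disjoint_left]
      intro x hx hy
      simp only [mem_filter, mem_univ, true_and, mem_union] at hx hy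
      omega
  exact key (fun i => (Pi.evalAddMonoidHom (fun _ : Fin (d + 1) => ZMod D) i).comp G.subtype) H
    hHD hk hb (fun x hx => by
      rcases hval' x with h | h | h
      · exact absurd h (hnz x hx)
      · exact Or.inl h
      · exact Or.inr h) hcb hcardG

/-- If `k ≥ 2`, `a ≥ 0`, `b ≥ 2` and `Δ` is a full-dimensional lattice polytope in `ℝ^d` with
`h*`-polynomial `1 + a t^k + b t^(2k)`, then `a + b + 1 ≤ (4 b + 4) k`. -/
theorem result : ∀ (k a b d : ℕ), 2 ≤ k → 2 ≤ b → ∀ V : Finset (Fin d → ℤ),
    (interior (polytope V)).Nonempty →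
    IsHStar V (1 + Polynomial.C (a : ℤ) * Polynomial.X ^ k +
      Polynomial.C (b : ℤ) * Polynomial.X ^ (2 * k)) →
    a + b + 1 ≤ (4 * b + 4) * k :=
  fun _ _ _ _ hk hb V hV hh => main hk hb V hV hh

end Pool.Agent.Results.MP_362855_co.VolumeBound
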